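import Mathlib
import Pool.Agent.R849.FP.Cover
import Pool.Agent.R849.FC.Conv

set_option autoImplicit false

/-!
# Degrees of curves whose coordinates are sums of few high powers

MP_6f117a_ag, Q1. Let `X ⊂ P^N` be a quasi-projective variety given by forms of degree at most `d`
(closed subvariety minus a hypersurface section; an arbitrary projective variety for `Q = 1`).

(1), (2): the absence of nonconstant morphisms from the multiplicative group to `X` is equivalent
to algebraic hyperbolicity, also modulo a closed set, for all curves in `X` whose coordinates are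
sums, with small coefficients, of `r` functions with orders divisible by
`M ≥ 2 (d + 2) ^ (2 (r + 1))` outside `S`. The constant depends only on `d` and `r`.

(3): for the varieties `X_M` with the equations `F (x_0 ^ M, …, x_N ^ M) = 0`,
`M ≥ 2 (d + 2) ^ (2 (N + 2))`, and all curves, with a constant depending only on `d` and `N`.
-/

namespace Pool.Agent.Results.MP_6f117a_ag.DegreesOfPowerSums

open FF MvPolynomial
open Pool.Agent.TH143 Pool.Agent.W603.LV Pool.Agent.W603.PV
open Pool.Agent.R849.FC hiding bd parts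
open Pool.Agent.R849.FP

/-- `K` is the function field of a smooth projective curve, `S` a finite set of its places, and `x`
is a vector of rational functions on the curve with `F (x) = 0` such that outside `S` the orders of
`Q (x)` are multiples of `M`. The coordinates are the sums `∑ u_j ρ_(j,a)` with functions `u_j`
whose orders outside `S` are multiples of `M`. -/
structure PowerCurve {N : ℕ} {ι : Type} (F : ι → MvPolynomial (Fin (N + 1)) ℂ)
    (Q : MvPolynomial (Fin (N + 1)) ℂ) {K : Type} [Field K] [Algebra ℂ K] {r : ℕ} (M : ℕ)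
    (S : Finset (Place ℂ K)) (u : Fin r → K) (ρ : Fin r → Fin (N + 1) → K)
    (x : Fin (N + 1) → K) : Prop where
  ne : ∀ j, u j ≠ 0
  power : ∀ j, ∀ P ∉ S, (M : ℤ) ∣ P.ord (u j)
  coord : ∀ a, x a = ∑ j, u j * ρ j a
  nonzero : x ≠ 0
  mem : ∀ i, aeval x (F i) = 0
  off : aeval x Q ≠ 0
  powerQ : ∀ P ∉ S, (M : ℤ) ∣ P.ord (aeval x Q)

/-- A vector `x` of rational functions on a curve with `F (x) = 0` such that `Q (x)` has no zeros
and poles outside `S`: if the coordinates have no poles and no common zeros outside `S`, a morphism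
from the curve without the points of `S` to the variety `F = 0`, `Q ≠ 0`. -/
structure Curve {N : ℕ} {ι : Type} (F : ι → MvPolynomial (Fin (N + 1)) ℂ)
    (Q : MvPolynomial (Fin (N + 1)) ℂ) {K : Type} [Field K] [Algebra ℂ K]
    (S : Finset (Place ℂ K)) (x : Fin (N + 1) → K) : Prop where
  nonzero : x ≠ 0
  mem : ∀ i, aeval x (F i) = 0
  off : aeval x Q ≠ 0
  unitQ : ∀ P ∉ S, P.ord (aeval x Q) = 0

/-- `y` is the value of `x` at the place `P`. -/
def ValueAt {N : ℕ} {K : Type} [Field K] [Algebra ℂ K] (P : Place ℂ K) (x : Fin (N + 1) → K)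
    (y : Fin (N + 1) → ℂ) : Prop :=
  ∀ a, x a = algebraMap ℂ K (y a) ∨ 0 < P.ord (x a - algebraMap ℂ K (y a))

theorem hv_of_value {N : ℕ} {K : Type} [Field K] [Algebra ℂ K] {P : Place ℂ K}
    {x : Fin (N + 1) → K} {y : Fin (N + 1) → ℂ} (h : ValueAt P x y) (a : Fin (N + 1)) :
    HV P (x a) (y a) := by
  rcases h a with h | h
  · exact Or.inl (sub_eq_zero.2 h)
  · exact Or.inr (by omega)

theorem value_of_hv {N : ℕ} {K : Type} [Field K] [Algebra ℂ K] {P : Place ℂ K}
    {x : Fin (N + 1) → K} {y : Fin (N + 1) → ℂ} (h : ∀ a, HV P (x a) (y a)) : ValueAt P x y := by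
  intro a
  rcases h a with h | h
  · exact Or.inl (sub_eq_zero.1 h)
  · exact Or.inr (by omega)

theorem zero_of_through {N : ℕ} {P : Fin (N + 1) → Polynomial ℂ} {x : Fin (N + 1) → ℂ}
    (h : Through P x) {G : MvPolynomial (Fin (N + 1)) ℂ} {d : ℕ} (hG : G.IsHomogeneous d)
    (h0 : ∀ t, t ≠ 0 → eval (fun j => (P j).eval t) G = 0) : eval x G = 0 := by
  obtain ⟨t, c, ht, hc, h⟩ := h
  have h1 := h0 t ht
  rw [show (fun j => (P j).eval t) = fun j => c * x j from funext h,
    Pool.Agent.H159R3.Exp.eval_smul_homog hG] at h1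
  exact (mul_eq_zero.mp h1).resolve_left (pow_ne_zero _ hc)

/-- a curve with many morphisms from the multiplicative group lies in `Z` -/
theorem in_Z {N : ℕ} {ι : Type} {F : ι → MvPolynomial (Fin (N + 1)) ℂ}
    {Q : MvPolynomial (Fin (N + 1)) ℂ} {K : Type} [Field K] [Algebra ℂ K] [IsFF ℂ K]
    {x : Fin (N + 1) → K} {T : Finset (Place ℂ K)}
    (h1 : ∀ P ∉ T, ∃ y : Fin (N + 1) → ℂ, (∀ a, HV P (x a) (y a)) ∧
        ∃ C, IsGmCurve F Q C ∧ Through C y)
    {Z : Set (MvPolynomial (Fin (N + 1)) ℂ)} (hZ : ∀ G ∈ Z, ∃ e, G.IsHomogeneous e)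
    (h : ∀ C, IsGmCurve F Q C → ∀ t, t ≠ 0 → ∀ G ∈ Z, eval (fun j => (C j).eval t) G = 0)
    {G : MvPolynomial (Fin (N + 1)) ℂ} (hG : G ∈ Z) : aeval x G = 0 := by
  by_contra hxG
  obtain ⟨T1, hT1⟩ := exists_supp (k := ℂ) (Finset.univ : Finset (Fin 1)) ![aeval x G]
  classical
  obtain ⟨P, hP⟩ := exists_place (T ∪ T1)
  rw [Finset.mem_union, not_or] at hP
  have hPG : P.ord (aeval x G) = 0 := by
    by_contra h; exact hP.2 (hT1 0 (Finset.mem_univ _) P h)
  obtain ⟨y, hy, C, hC1, hC2⟩ := h1 P hP.1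
  obtain ⟨e, he⟩ := hZ G hG
  exact (HV.aeval hy G).ne_zero hxG hPG (zero_of_through hC2 he fun t ht => h C hC1 t ht G hG)

/-- There are constants `A n` depending only on `d` and `n` such that for all `N`, all forms `F i`
and `Q` of degree at most `d` in `N + 1` variables, with `X` the variety `F = 0`, `Q ≠ 0` in `P^N`:

(1) Let `M ≥ 2 (d + 2) ^ (2 (r + 1))`. For every curve `x` in `F = 0`, not in `Q = 0`, whose
coordinates are sums `∑ u_j ρ_(j,a)` of `r` terms, such that the orders of `u_j` and of `Q (x)`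
outside `S` are multiples of `M`, either its degree is at most
`A r * (max (2 g - 2 + #S, 0) + ∑ deg ρ_(j,a))`, or through all but finitely many of its points
passes a nonconstant morphism from the multiplicative group to `X`.

(2) For every closed set `Z` the following are equivalent: all nonconstant morphisms from the
multiplicative group to `X` have their image in `Z`; the bound of (1) holds for all such curves not
contained in `Z`, for all `r` and `M ≥ 2 (d + 2) ^ (2 (r + 1))`.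

(3) Let `M ≥ 2 (d + 2) ^ (2 (N + 2))` and let `X_M` be the variety of the points such that the point
with the coordinates `x_j ^ M` is in `X`. For every curve in `X_M` without the points of `S`, either
`M` times its degree is at most `A (N + 1) * max (2 g - 2 + #S, 0)`, or through all but finitely many of its
points passes a nonconstant morphism from the multiplicative group to `X_M`. For every closed set
`Z` the following are equivalent: all nonconstant morphisms from the multiplicative group to `X_M`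
have their image in `Z`; the bound for the degree holds for all curves in `X_M` not contained in
`Z`; the degrees of the morphisms from the multiplicative group to `X_M` whose image is not
contained in `Z` are bounded. -/
theorem result (d : ℕ) : ∃ A : ℕ → ℕ, ∀ {N : ℕ} {ι : Type} (F : ι → MvPolynomial (Fin (N + 1)) ℂ)
    (_ : ∀ i, ∃ e ≤ d, (F i).IsHomogeneous e) (Q : MvPolynomial (Fin (N + 1)) ℂ)
    (_ : ∃ e ≤ d, Q.IsHomogeneous e),
    (∀ (r M : ℕ), 2 * (d + 2) ^ (2 * (r + 1)) ≤ M → ∀ (K : Type) [Field K] [Algebra ℂ K] [IsFF ℂ K]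
      (S : Finset (Place ℂ K)) (u : Fin r → K) (ρ : Fin r → Fin (N + 1) → K)
      (x : Fin (N + 1) → K), PowerCurve F Q M S u ρ x →
      pht ℂ x ≤ A r * (max (canDeg ℂ K + S.card) 0 + ∑ j, ∑ a, hgt ℂ (ρ j a)) ∨
      ∃ T : Finset (Place ℂ K), ∀ P ∉ T, ∃ y : Fin (N + 1) → ℂ, ValueAt P x y ∧
        ∃ C, IsGmCurve F Q C ∧ Through C y) ∧
    (∀ Z : Set (MvPolynomial (Fin (N + 1)) ℂ), (∀ G ∈ Z, ∃ e, G.IsHomogeneous e) →
      ((∀ C, IsGmCurve F Q C → ∀ t, t ≠ 0 → ∀ G ∈ Z, eval (fun j => (C j).eval t) G = 0) ↔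
        ∀ (r M : ℕ), 2 * (d + 2) ^ (2 * (r + 1)) ≤ M → ∀ (K : Type) [Field K] [Algebra ℂ K]
          [IsFF ℂ K] (S : Finset (Place ℂ K)) (u : Fin r → K) (ρ : Fin r → Fin (N + 1) → K)
          (x : Fin (N + 1) → K), PowerCurve F Q M S u ρ x → (∃ G ∈ Z, aeval x G ≠ 0) →
          pht ℂ x ≤ A r * (max (canDeg ℂ K + S.card) 0 + ∑ j, ∑ a, hgt ℂ (ρ j a)))) ∧
    ∀ M : ℕ, 2 * (d + 2) ^ (2 * (N + 2)) ≤ M →
      (∀ (K : Type) [Field K] [Algebra ℂ K] [IsFF ℂ K] (S : Finset (Place ℂ K))
        (y : Fin (N + 1) → K), Curve (fun i => expand M (F i)) (expand M Q) S y →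
        M * pht ℂ y ≤ A (N + 1) * max (canDeg ℂ K + S.card) 0 ∨
        ∃ T : Finset (Place ℂ K), ∀ P ∉ T, ∃ y' : Fin (N + 1) → ℂ, ValueAt P y y' ∧
          ∃ C, IsGmCurve (fun i => expand M (F i)) (expand M Q) C ∧ Through C y') ∧
      ∀ Z : Set (MvPolynomial (Fin (N + 1)) ℂ), (∀ G ∈ Z, ∃ e, G.IsHomogeneous e) →
        [∀ C, IsGmCurve (fun i => expand M (F i)) (expand M Q) C → ∀ t, t ≠ 0 → ∀ G ∈ Z,
            eval (fun j => (C j).eval t) G = 0,
          ∀ (K : Type) [Field K] [Algebra ℂ K] [IsFF ℂ K] (S : Finset (Place ℂ K))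
            (y : Fin (N + 1) → K), Curve (fun i => expand M (F i)) (expand M Q) S y →
            (∃ G ∈ Z, aeval y G ≠ 0) → M * pht ℂ y ≤ A (N + 1) * max (canDeg ℂ K + S.card) 0,
          ∃ B : ℤ, ∀ y : Fin (N + 1) → RatFunc ℂ,
            Curve (fun i => expand M (F i)) (expand M Q) ZP y → (∃ G ∈ Z, aeval y G ≠ 0) →
            pht ℂ y ≤ B].TFAE := by
  classical
  choose A1 hA1 using fun r => dich d r
  choose A2 hA2 using fun N => cover_dich d N
  have hmax1 : ∀ n, A1 n ≤ max (A1 n) (A2 (n - 1)) := fun n => le_max_left _ _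
  refine ⟨fun n => max (A1 n) (A2 (n - 1)), ?_⟩
  intro N ι F hF Q hQ
  have hone : ∀ (r M : ℕ), 2 * (d + 2) ^ (2 * (r + 1)) ≤ M → ∀ (K : Type) [Field K] [Algebra ℂ K]
      [IsFF ℂ K] (S : Finset (Place ℂ K)) (u : Fin r → K) (ρ : Fin r → Fin (N + 1) → K)
      (x : Fin (N + 1) → K), PowerCurve F Q M S u ρ x →
      pht ℂ x ≤ (max (A1 r) (A2 (r - 1)) : ℕ) *
        (max (canDeg ℂ K + S.card) 0 + ∑ j, ∑ a, hgt ℂ (ρ j a)) ∨
      ∃ T : Finset (Place ℂ K), ∀ P ∉ T, ∃ y : Fin (N + 1) → ℂ, (∀ a, HV P (x a) (y a)) ∧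
        ∃ C, IsGmCurve F Q C ∧ Through C y := by
    intro r M hM K _ _ _ S u ρ x hx
    rcases hA1 r F hF Q hQ M hM K S u ρ x hx.ne hx.power hx.coord hx.nonzero hx.mem hx.off
      hx.powerQ with h | h
    · left
      refine h.trans (mul_le_mul_of_nonneg_right ?_ ?_)
      · exact_mod_cast le_max_left _ _
      · have h1 : 0 ≤ ∑ j, ∑ a, hgt ℂ (ρ j a) :=
          Finset.sum_nonneg fun _ _ => Finset.sum_nonneg fun _ _ => hgt_nonneg _
        have h2 : 0 ≤ max (canDeg ℂ K + (S.card : ℤ)) 0 := le_max_right _ _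
        linarith
    · exact Or.inr h
  refine ⟨?_, fun Z hZ => ⟨?_, ?_⟩, fun M hM => ?_⟩
  · intro r M hM K _ _ _ S u ρ x hx
    rcases hone r M hM K S u ρ x hx with h | ⟨T, h⟩
    · exact Or.inl h
    · right
      refine ⟨T, fun P hP => ?_⟩
      obtain ⟨y, hy, h⟩ := h P hP
      exact ⟨y, value_of_hv hy, h⟩
  · rintro h r M hM K _ _ _ S u ρ x hx ⟨G, hG, hxG⟩
    rcases hone r M hM K S u ρ x hx with h1 | ⟨T, h1⟩
    · exact h1
    · exact absurd (in_Z h1 hZ h hG) hxG
  · intro h C hC t ht G hG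
    by_contra hne
    obtain ⟨r, V, hV⟩ := unbounded F Q C hC G hne
    obtain ⟨m, x, h1, h2, h3, h4, h5, h6, h7⟩ := hV ((max (A1 r) (A2 (r - 1)) : ℕ) *
      (max (canDeg ℂ (RatFunc ℂ) + (ZP.card : ℤ)) 0 +
        ∑ j, ∑ a, hgt ℂ (algebraMap ℂ (RatFunc ℂ) (V j a))))
    refine absurd (h r _ le_rfl (RatFunc ℂ) ZP (fun j => (RatFunc.X : RatFunc ℂ) ^ m j)
      (fun j a => algebraMap ℂ (RatFunc ℂ) (V j a)) x
      ⟨fun j => zpow_ne_zero _ RatFunc.X_ne_zero, fun j P hP => ?_, h1, h2, h3,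
      h4, fun P hP => ?_⟩ ⟨G, hG, h6⟩) (not_le.2 h7)
    · rw [P.ord_zpow]
      rw [mem_ZP, not_not] at hP
      rw [hP, mul_zero]
      exact dvd_zero _
    · rw [h5 P hP]
      exact dvd_zero _
  · have htwo : ∀ (K : Type) [Field K] [Algebra ℂ K] [IsFF ℂ K] (S : Finset (Place ℂ K))
        (y : Fin (N + 1) → K), Curve (fun i => expand M (F i)) (expand M Q) S y →
        M * pht ℂ y ≤ (max (A1 (N + 1)) (A2 (N + 1 - 1)) : ℕ) * max (canDeg ℂ K + S.card) 0 ∨
        ∃ T : Finset (Place ℂ K), ∀ P ∉ T, ∃ y' : Fin (N + 1) → ℂ, (∀ a, HV P (y a) (y' a)) ∧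
          ∃ C, IsGmCurve (fun i => expand M (F i)) (expand M Q) C ∧ Through C y' := by
      intro K _ _ _ S y hy
      rcases hA2 N F hF Q hQ M hM K S y hy.nonzero hy.mem hy.off
        (fun P hP => by rw [hy.unitQ P hP]; exact dvd_zero _) with h | h
      · left
        refine h.trans (mul_le_mul_of_nonneg_right ?_ (le_max_right _ _))
        exact_mod_cast le_max_right _ _
      · exact Or.inr h
    refine ⟨?_, fun Z hZ => ?_⟩
    · intro K _ _ _ S y hy
      rcases htwo K S y hy with h | ⟨T, h⟩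
      · exact Or.inl h
      · right
        refine ⟨T, fun P hP => ?_⟩
        obtain ⟨y, hy, h⟩ := h P hP
        exact ⟨y, value_of_hv hy, h⟩
    tfae_have 1 → 2 := by
      rintro h K _ _ _ S y hy ⟨G, hG, hyG⟩
      rcases htwo K S y hy with h1 | ⟨T, h1⟩
      · exact h1
      · exact absurd (in_Z h1 hZ h hG) hyG
    tfae_have 2 → 3 := by
      intro h
      refine ⟨(max (A1 (N + 1)) (A2 (N + 1 - 1)) : ℕ) *
        max (canDeg ℂ (RatFunc ℂ) + (ZP.card : ℤ)) 0, fun y hy hG => ?_⟩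
      have hM0 : 0 < M := lt_of_lt_of_le (by positivity) hM
      obtain ⟨j, hj⟩ := Function.ne_iff.1 hy.nonzero
      have h1 : 0 ≤ pht ℂ y :=
        (hgt_nonneg _).trans (Pool.Agent.W603.CX.hgt_le_pht y hj hj)
      have h2 : (1 : ℤ) ≤ M := by exact_mod_cast hM0
      have h3 : pht ℂ y ≤ M * pht ℂ y := by nlinarith
      exact h3.trans (h (RatFunc ℂ) ZP y hy hG)
    tfae_have 3 → 1 := by
      intro h C hC t ht G hG
      by_contra hne
      obtain ⟨r, V, hV⟩ := unbounded _ _ C hC G hne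
      obtain ⟨B, hB⟩ := h
      obtain ⟨m, x, h1, h2, h3, h4, h5, h6, h7⟩ := hV B
      exact absurd (hB x ⟨h2, h3, h4, h5⟩ ⟨G, hG, h6⟩) (not_le.2 h7)
    tfae_finish

end Pool.Agent.Results.MP_6f117a_ag.DegreesOfPowerSums
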