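import Pool.Agent.R869.SSix
import Pool.Agent.R869.UAll

/-!
MP_6f117a_ag, Q1: the four notions of hyperbolicity for all projective varieties given by linear
combinations of the powers `x_j ^ d` and of `s` further monomials of degree `d`, in given sets of
variables, for almost all choices of these monomials; for the hypersurfaces among them (with arbitrary
coefficients), a necessary and sufficient combinatorial criterion for hyperbolicity, and for the
existence of subvarieties not of general type, and of maps from curves of unbounded degree, with given
vanishing coordinates; algebraic hyperbolicity, with a uniform constant, of complete intersections of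
all dimensions with almost all sets of monomials of a given shape; forms with few monomials whose
exponents are far apart in the sense of lattice widths.

`TuplesIn I d`, `AlmostAllIn I P` (`Pool/Agent/R869/SDefs.lean`): the tuples of exponent vectors of
degree `d`, the `i`-th one of a monomial in the variables from `I i`; the proportion of the tuples
with the property `P` tends to `1` for `d → ∞`. `withPowers` (`WDensDefs.lean`): the set of the
exponent vectors `a i` and of those of the `x_j ^ d`. `Loose F J` (`USharpDefs.lean`): `F` does not
have exactly one monomial in the variables from `J`, and there is a colouring of the variables with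
`V ≥ 2` colours on `J` such that `N + D + 4 ≤ 2 V`, where `N` is the number of the monomials of `F` in
the variables from `J` whose variables have different colours, and `D` is the number of the colours on
`J` for which exactly one monomial of `F` in the variables from `J` has all its variables of this
colour. `GenCoeffs F T` (`WGen.lean`): the coefficient vectors of the `m` forms `F e` at any `m`
elements of `T` are linearly independent (all coefficients are nonzero, if `m = 1`).
`WideT ∅ T N` (`WHgt.lean`): whenever at most `n` pairs of elements of the sets `T e`, in the variables
of a set `I`, are such that the sum of the segments between them has positive width in all directions,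
this sum has width at least `N` in all directions. From the starting repository: `AlgHyperbolic A F`,
`BoundedOnCurves`, `OrbitsConstant` (`Pool/Agent/W603/CX/Groupless.lean`): maps from curves of genus
`g` to `{F = 0}` have degree at most `A max (2 g - 2, 0)`; maps from each curve have bounded degree;
maps `t ↦ (x_j t ^ b_j)` are constant; `GmCurve`, `AllGeneralType`, `SubVar`
(`Pool/Agent/W602/GT`): nonconstant maps from the multiplicative group; all closed subvarieties are of
general type; the generic points of the closed subvarieties; `pht`, `canDeg`: the degree of a map,
`2 g - 2`.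
-/

set_option autoImplicit false

namespace Pool.Agent.Results.MP_6f117a_ag.AlmostAllMonomials

open FF MvPolynomial Pool.Agent.W602.GT Pool.Agent.R869.Wd
open Pool.Agent.W603.LV (canDeg)
open Pool.Agent.W603.PV (pht)
open Pool.Agent.W603.CX (AlgHyperbolic BoundedOnCurves OrbitsConstant)

/-- For the projective variety `X = {F = 0}`, the following are equivalent: `X` is algebraically
hyperbolic with the constant `A`, or with some constant; the degrees of the morphisms from each smooth
projective curve to `X` are bounded; the morphisms `t ↦ (x_j t ^ b_j)` to `X` are constant; there are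
no nonconstant morphisms from the multiplicative group to `X`; all closed subvarieties of `X` of
positive dimension are of general type. -/
def Equivalent {k : Type} [Field k] [IsAlgClosed k] [CharZero k] {n : ℕ} {ι : Type} (A : ℕ)
    (F : ι → MvPolynomial (Fin (n + 1)) k) : Prop :=
  [AlgHyperbolic A F, ∃ A', AlgHyperbolic A' F, BoundedOnCurves F, OrbitsConstant F,
    ∀ P, ¬ GmCurve F P, AllGeneralType F].TFAE

/-- The hypersurface `X = {F = 0}` is hyperbolic (all closed subvarieties of positive dimension are
of general type) if and only if no set of variables is loose for `F`; and for all nonempty sets `J` of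
variables the following are equivalent: `J` is loose for `F`; there is a closed subvariety of `X` of
positive dimension which is not of general type and on which exactly the coordinates outside `J` vanish
identically; the degrees of the maps from the projective line to `X` with this property are unbounded;
it is not true that all maps with this property from curves of genus `g` to `X` have degree at most
`A max (2 g - 2) 0`. -/
def LooseCriterion {k : Type} [Field k] {n : ℕ} (A : ℕ) (F : MvPolynomial (Fin (n + 1)) k) : Prop :=
  (AllGeneralType (fun _ : Fin 1 => F) ↔ ∀ J, ¬ Loose F J) ∧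
  ∀ J : Finset (Fin (n + 1)), J.Nonempty →
    [Loose F J,
      ∃ (K : Type) (_ : Field K) (_ : Algebra k K) (w : ℕ) (y : Fin (n + 1) → K), 1 ≤ w ∧
        SubVar (fun _ : Fin 1 => F) K w y ∧ (∀ j, y j ≠ 0 ↔ j ∈ J) ∧ ¬ GeneralType k K w,
      ¬ ∃ B : ℤ, ∀ f : Fin (n + 1) → RatFunc k, (∀ j, f j ≠ 0 ↔ j ∈ J) → val f F = 0 →
        pht k f ≤ B,
      ¬ ∀ (L : Type) [Field L] [Algebra k L] [IsFF k L] (f : Fin (n + 1) → L),
        (∀ j, f j ≠ 0 ↔ j ∈ J) → val f F = 0 → pht k f ≤ A * max (canDeg k L) 0].TFAE

/-- (1) For all `n`, `s`, all nonempty sets of variables `I 1, …, I s` and almost all tuples of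
monomials of degree `d` in `n + 1` variables, the `i`-th one in the variables from `I i`, there is a
constant `A` such that, over all algebraically closed fields of characteristic zero, the conditions in
`Equivalent` are equivalent for all projective varieties given by `m` linear combinations of these
monomials and of the `x_j ^ d`, and `LooseCriterion` holds for all the hypersurfaces given by such
linear combinations (with arbitrary coefficients).

(2) If all sets of `2 m + 2` variables are among the `I i`, `m ≥ 1`, and all `I i` have at least
`m + 1` elements, then, for almost all tuples of such monomials, there is a constant `A` such that all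
the `X` given by `m` such linear combinations, with any `m` coefficient vectors linearly independent,
are algebraically hyperbolic, with the constant `A`, and all their closed subvarieties of positive
dimension are of general type. -/
theorem result :
    (∀ (n s : ℕ) (I : Fin s → Finset (Fin (n + 1))), (∀ i, (I i).Nonempty) →
      AlmostAllIn I fun d a => ∃ A : ℕ, ∀ (k : Type) [Field k] [IsAlgClosed k] [CharZero k],
        (∀ (m : ℕ) (F : Fin m → MvPolynomial (Fin (n + 1)) k),
          (∀ e, (F e).support ⊆ withPowers d a) → Equivalent A F) ∧
        ∀ F : MvPolynomial (Fin (n + 1)) k, F.support ⊆ withPowers d a → LooseCriterion A F) ∧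
    ∀ (n m s : ℕ) (I : Fin s → Finset (Fin (n + 1))), 1 ≤ m → (∀ i, m + 1 ≤ (I i).card) →
      (∀ A : Finset (Fin (n + 1)), A.card = 2 * m + 2 → ∃ i, I i = A) →
      AlmostAllIn I fun d a => ∃ A : ℕ, ∀ (k : Type) [Field k] [IsAlgClosed k] [CharZero k]
        (F : Fin m → MvPolynomial (Fin (n + 1)) k), (∀ e, (F e).support ⊆ withPowers d a) →
        GenCoeffs F (withPowers d a) → AlgHyperbolic A F ∧ AllGeneralType F := by
  refine ⟨?_, ?_⟩
  · intro n s I hI
    refine almost_typI hI fun d a hty => ?_
    obtain ⟨s', N, hg⟩ := hty.good
    obtain ⟨A, hA⟩ := hg.unif
    exact ⟨A, fun k _ _ _ => ⟨fun m F hFT => six (hg.sys hFT ∅) (hA k (Fin m) F hFT ∅),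
      fun F hF => ⟨(hty.loose_general hF).symm, fun J hJ =>
        hty.critHgt hF (hA k (Fin 1) (fun _ => F) (fun _ => hF) ∅) hJ⟩⟩⟩
  · intro n m s I hm hI hall
    refine almost_typI (fun i => Finset.card_pos.1 (lt_of_lt_of_le (Nat.succ_pos m) (hI i)))
      fun d a hty => ?_
    obtain ⟨s', N, hg⟩ := hty.good
    obtain ⟨A, hA⟩ := hg.unif
    refine ⟨A, fun k _ _ _ F hFT hgc => ?_⟩
    have h1 := hty.all hFT hgc (spread_all hm hI hall)
    exact ⟨((six (hg.sys hFT ∅) (hA k (Fin m) F hFT ∅)).out 0 5).2 h1, h1⟩

/-- **Wide systems.** Let `T e` be finitely many sets of at most `s` exponent vectors which are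
`N`-wide with `N > n s (s - 1) (s - 2) / 2`. There is a constant `A` such that the conditions in
`Equivalent` are equivalent for all projective varieties `X` over algebraically closed fields of
characteristic zero given by forms `F e` with exponents in `T e`. -/
theorem wide_systems : ∀ (n s N : ℕ) (ι : Type) [Finite ι]
      (T : ι → Finset (Fin (n + 1) →₀ ℕ)), 1 ≤ s →
      (∀ e, (T e).card ≤ s) → WideT ∅ T N → n * (s * ((s - 1) * (s - 2) / 2)) < N →
      ∃ A : ℕ, ∀ (k : Type) [Field k] [IsAlgClosed k] [CharZero k]
        (F : ι → MvPolynomial (Fin (n + 1)) k), (∀ e, (F e).support ⊆ T e) →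
        (∀ e, IsForm (F e)) → Equivalent A F := by
  intro n s N ι _ T hs hT hW hN
  have hN' : s * (n * Pool.Agent.R869.tri (s - 1)) < N := by
    rw [tri_choose]
    refine lt_of_le_of_lt (le_of_eq ?_) hN
    ring
  obtain ⟨A, hA⟩ := unif ∅ T hs hT hW (cstC_lt hs hN')
  exact ⟨A, fun k _ _ _ F hFT hF => six ⟨hF, hs,
    fun e => (Finset.card_le_card (hFT e)).trans (hT e), wide_of_wideT hW hFT, hN'⟩
    (hA k F hFT hF)⟩

/-- **Hyperbolic hypersurfaces.** Let a monomial of degree `d` in the variables from `I` be given for
each set `I` of four of the `n + 1` variables. For almost all such families of monomials there is a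
constant `A` such that all the hypersurfaces in projective `n`-space over algebraically closed fields
of characteristic zero given by linear combinations, with nonzero coefficients, of these monomials and
of the `x_j ^ d` are algebraically hyperbolic, with the constant `A`, and all their subvarieties are
of general type. -/
theorem hypersurfaces (n s : ℕ) (I : Fin s → Finset (Fin (n + 1))) (hI : ∀ i, (I i).card = 4)
    (hall : ∀ A : Finset (Fin (n + 1)), A.card = 4 → ∃ i, I i = A) :
    AlmostAllIn I fun d a => ∃ A : ℕ, ∀ (k : Type) [Field k] [IsAlgClosed k] [CharZero k]
      (F : MvPolynomial (Fin (n + 1)) k), F.support = withPowers d a →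
      AlgHyperbolic A (fun _ : Fin 1 => F) ∧ AllGeneralType (fun _ : Fin 1 => F) := by
  refine (result.2 n 1 s I le_rfl (fun i => by rw [hI]; norm_num) hall).mono
    fun _ _ _ h => ?_
  obtain ⟨A, h⟩ := h
  exact ⟨A, fun k _ _ _ F hF => h k (fun _ => F) (fun _ => hF.le) (genCoeffs_one hF)⟩

end Pool.Agent.Results.MP_6f117a_ag.AlmostAllMonomials
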