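import Pool.Agent.R871.SG.AlgE

/-!
MP_6f117a_ag, Q1: boundedness of projective varieties and holomorphic maps of slow growth from affine
curves.
-/

set_option autoImplicit false

namespace Pool.Agent.Results.MP_6f117a_ag.BoundedSlowMaps

open Pool.Agent.R871.SG MvPolynomial

/-- Let `C` be an irreducible affine variety in `ℂᵖ` (for instance a smooth affine curve), given by the
prime ideal `I`, and let `X = {F = 0}` be a projective variety in `ℙⁿ`, all over the complex numbers.
There is a function `φ` with `φ r / log r → ∞` for `r → ∞` such that for all closed subsets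
`Z = {G = 0}` and all numbers `D` the following are equivalent.

(1) All algebraic maps `C → X` (given by homogeneous coordinates which are polynomials on `C`, not all
identically zero) which do not map `C` to `Z` are given by homogeneous coordinates which are
polynomials of degree at most `D` on `C`, not all identically zero.

(2) All holomorphic maps `C → X` which do not map `C` to `Z` and which are given by homogeneous
coordinates which are restrictions of an entire map `f : ℂᵖ → ℂⁿ⁺¹` such that `log ‖f z‖ ≤ φ r` for
all `z` with `‖z‖ ≤ r`, for arbitrarily large `r`, are given by homogeneous coordinates which are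
polynomials of degree at most `D` on `C`, not all identically zero. -/
theorem result {p n : ℕ} {ι : Type} (I : Ideal (MvPolynomial (Fin p) ℂ)) [I.IsPrime]
    (F : ι → MvPolynomial (Fin (n + 1)) ℂ) (_hF : ∀ i, ∃ e, (F i).IsHomogeneous e) :
    ∃ φ : ℝ → ℝ, Grows φ ∧ ∀ (κ : Type) (G : κ → MvPolynomial (Fin (n + 1)) ℂ) (D : ℕ),
      (∀ k, ∃ e, (G k).IsHomogeneous e) →
      ((∀ P : Fin (n + 1) → MvPolynomial (Fin p) ℂ, HolOn I F (mv P) → NotZero I (mv P) →
        Outside I G (mv P) → ProjDegLE I D (mv P)) ↔
      ∀ f, HolOn I F f → SlowM φ f → NotZero I f → Outside I G f → ProjDegLE I D f) := by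
  obtain ⟨φ, hφ, h⟩ := bounded_iff_proj I F
  exact ⟨φ, hφ, fun κ G D _ => h κ G D⟩

end Pool.Agent.Results.MP_6f117a_ag.BoundedSlowMaps
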